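import Pool.Agent.Y788.SL.Stm

set_option autoImplicit false

/-!
# Project SL, job P: split subgroups of `SL_2(F)`
-/

namespace Pool.Agent.Y508.SL

open Matrix Pool.Agent.H302R2 Pool.Agent.H541R3.ART Pool.Agent.Y788.SL Pool.Agent.Y786.FR

section field

variable {F : Type} [Field F] [Fintype F]

omit [Fintype F] in
theorem cm (A B : SpecialLinearGroup (Fin 2) F) : (A * B).1 = A.1 * B.1 := rfl

omit [Fintype F] in
theorem c1 : (1 : SpecialLinearGroup (Fin 2) F).1 = 1 := rfl

omit [Fintype F] in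
theorem cim (k : SpecialLinearGroup (Fin 2) F) : (k⁻¹).1 * k.1 = 1 := by
  rw [← cm, inv_mul_cancel, c1]

omit [Fintype F] in
theorem cmi (k : SpecialLinearGroup (Fin 2) F) : k.1 * (k⁻¹).1 = 1 := by
  rw [← cm, mul_inv_cancel, c1]

/-- an element of order dividing `2 ^ a * (q - 1)` has an eigenvector over `F` -/
theorem eig [CharP F 2] (h : SpecialLinearGroup (Fin 2) F) (a : ℕ)
    (ha : h ^ (2 ^ a * (Nat.card F - 1)) = 1) :
    ∃ v : Fin 2 → F, v ≠ 0 ∧ ∃ c : Fˣ, h.1 *ᵥ v = (c : F) • v := by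
  classical
  obtain ⟨M, hM⟩ : ∃ M : Matrix (Fin 2) (Fin 2) F, M = h := ⟨_, rfl⟩
  have hdet : M.det = 1 := by rw [hM]; exact h.2
  have hq : 1 < Fintype.card F := Fintype.one_lt_card
  have hMa : M ^ (2 ^ a * (Fintype.card F - 1)) = 1 := by
    have := congrArg (fun g : SpecialLinearGroup (Fin 2) F => (g : Matrix (Fin 2) (Fin 2) F)) ha
    simp only [Nat.card_eq_fintype_card] at this
    rw [hM]
    exact_mod_cast this
  -- the polynomial identity
  let D : Polynomial F →* F :=
    (Matrix.detMonoidHom (n := Fin 2) (R := F)).comp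
      ((Polynomial.aeval M : Polynomial F →ₐ[F] Matrix (Fin 2) (Fin 2) F) :
        Polynomial F →* Matrix (Fin 2) (Fin 2) F)
  have hD : ∀ p, D p = (Polynomial.aeval M p).det := fun p => rfl
  have h1 : (Polynomial.X ^ Fintype.card F - Polynomial.X : Polynomial F) =
      ∏ x : F, (Polynomial.X - Polynomial.C x) := by
    have hr := FiniteField.roots_X_pow_card_sub_X F
    have hmon : (Polynomial.X ^ Fintype.card F - Polynomial.X : Polynomial F).Monic := by
      apply Polynomial.monic_X_pow_sub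
      rw [Polynomial.degree_X]
      exact_mod_cast hq
    have hc : Multiset.card (Polynomial.X ^ Fintype.card F - Polynomial.X : Polynomial F).roots =
        (Polynomial.X ^ Fintype.card F - Polynomial.X : Polynomial F).natDegree := by
      rw [hr, FiniteField.X_pow_card_sub_X_natDegree_eq F hq]
      rfl
    have h2 := Polynomial.prod_multiset_X_sub_C_of_monic_of_roots_card_eq hmon hc
    rw [hr] at h2
    exact h2.symm
  have h2 : Polynomial.aeval M ((Polynomial.X ^ Fintype.card F - Polynomial.X : Polynomial F) ^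
      2 ^ a) = 0 := by
    have e1 : (Polynomial.X ^ Fintype.card F - Polynomial.X : Polynomial F) ^ 2 ^ a =
        Polynomial.X ^ 2 ^ a * (Polynomial.X ^ (2 ^ a * (Fintype.card F - 1)) - 1) := by
      have : Fact (Nat.Prime 2) := ⟨Nat.prime_two⟩
      have : CharP (Polynomial F) 2 := inferInstance
      rw [sub_pow_char_pow (R := Polynomial F) (p := 2), mul_sub, mul_one, ← pow_mul, ← pow_add]
      congr 2
      obtain ⟨k, hk⟩ : ∃ k, Fintype.card F = k + 1 := ⟨Fintype.card F - 1, by omega⟩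
      rw [hk]
      simp
      ring
    rw [e1, map_mul, map_sub, map_pow, map_pow, Polynomial.aeval_X, hMa, map_one, sub_self,
      mul_zero]
  have h3 : D ((Polynomial.X ^ Fintype.card F - Polynomial.X : Polynomial F) ^ 2 ^ a) = 0 := by
    rw [hD, h2]
    simp
  rw [map_pow] at h3
  have h4 := pow_eq_zero_iff (by positivity) |>.1 h3
  rw [h1, map_prod, Finset.prod_eq_zero_iff] at h4
  obtain ⟨c, -, hc⟩ := h4
  rw [hD, map_sub, Polynomial.aeval_X, Polynomial.aeval_C] at hc
  obtain ⟨v, hv, hv2⟩ := Matrix.exists_mulVec_eq_zero_iff.2 hc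
  have h5 : M *ᵥ v = c • v := by
    rw [Matrix.sub_mulVec, Algebra.algebraMap_eq_smul_one, Matrix.smul_mulVec, Matrix.one_mulVec,
      sub_eq_zero] at hv2
    exact hv2
  have hc0 : c ≠ 0 := by
    rintro rfl
    rw [zero_smul] at h5
    have : M.det = 0 := Matrix.exists_mulVec_eq_zero_iff.1 ⟨v, hv, h5⟩
    rw [hdet] at this
    exact one_ne_zero this
  exact ⟨v, hv, Units.mk0 c hc0, by rw [← hM]; exact h5⟩

omit [Fintype F] in
theorem char_two_ne [CharP F 2] {c : Fˣ} (hc : c ≠ 1) : (c : F) - ((c⁻¹ : Fˣ) : F) ≠ 0 := by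
  intro h
  apply hc
  have h1 : (c : F) * c = 1 := by
    have : (c : F) = ((c⁻¹ : Fˣ) : F) := sub_eq_zero.1 h
    nth_rewrite 2 [this]
    rw [← Units.val_mul, mul_inv_cancel, Units.val_one]
  have h2 : ((c : F) - 1) ^ 2 = 0 := by
    have h3 : (2 : F) = 0 := CharTwo.two_eq_zero
    linear_combination h1 - ((c : F) - 1) * h3
  have h3 := pow_eq_zero_iff (two_ne_zero) |>.1 h2
  exact Units.ext (sub_eq_zero.1 h3)

omit [Fintype F] in
/-- classification of the elements with an eigenvector -/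
theorem cls [CharP F 2] (h : SpecialLinearGroup (Fin 2) F)
    (he : ∃ v : Fin 2 → F, v ≠ 0 ∧ ∃ c : Fˣ, h.1 *ᵥ v = (c : F) • v) :
    ∃ k : SpecialLinearGroup (Fin 2) F,
      (∃ x : F, k * h * k⁻¹ = ux x) ∨ ∃ c : Fˣ, c ≠ 1 ∧ k * h * k⁻¹ = tc c := by
  obtain ⟨v, hv, c, hc⟩ := he
  obtain ⟨P, hP⟩ : ∃ P : SpecialLinearGroup (Fin 2) F,
      P.1 *ᵥ ![1, 0] = v := by
    by_cases h0 : v 0 = 0
    · have h1 : v 1 ≠ 0 := by
        intro h1
        apply hv
        ext i
        fin_cases i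
        · exact h0
        · exact h1
      refine ⟨⟨!![0, -(v 1)⁻¹; v 1, 0], by rw [Matrix.det_fin_two]; simp [h1]⟩, ?_⟩
      ext i
      fin_cases i
      · simp [Matrix.mulVec, dotProduct, Fin.sum_univ_two, h0]
      · simp [Matrix.mulVec, dotProduct, Fin.sum_univ_two]
    · refine ⟨⟨!![v 0, 0; v 1, (v 0)⁻¹], by rw [Matrix.det_fin_two]; simp [h0]⟩, ?_⟩
      ext i
      fin_cases i
      · simp [Matrix.mulVec, dotProduct, Fin.sum_univ_two]
      · simp [Matrix.mulVec, dotProduct, Fin.sum_univ_two]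
  obtain ⟨m, hm⟩ : ∃ m : SpecialLinearGroup (Fin 2) F, m = P⁻¹ * h * P := ⟨_, rfl⟩
  have hPi : (P⁻¹ : SpecialLinearGroup (Fin 2) F).1 *ᵥ v = ![1, 0] := by
    rw [← hP, Matrix.mulVec_mulVec]
    rw [cim, Matrix.one_mulVec]
  have hm1 : m.1 *ᵥ ![1, 0] = (c : F) • ![1, 0] := by
    rw [hm, cm, cm, ← Matrix.mulVec_mulVec,
      ← Matrix.mulVec_mulVec, hP, hc, Matrix.mulVec_smul, hPi]
  have m00 : m.1 0 0 = c := by
    have := congrFun hm1 0
    simpa [Matrix.mulVec, dotProduct, Fin.sum_univ_two] using this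
  have m10 : m.1 1 0 = 0 := by
    have := congrFun hm1 1
    simpa [Matrix.mulVec, dotProduct, Fin.sum_univ_two] using this
  have m11 : m.1 1 1 = ((c⁻¹ : Fˣ) : F) := by
    have h2 := m.2
    rw [Matrix.det_fin_two, m00, m10, mul_zero, sub_zero] at h2
    rw [Units.val_inv_eq_inv_val]
    exact eq_inv_of_mul_eq_one_right h2
  by_cases h1 : c = 1
  · refine ⟨P⁻¹, Or.inl ⟨m.1 0 1, ?_⟩⟩
    rw [inv_inv, ← hm]
    apply Subtype.ext
    ext i j
    fin_cases i <;> fin_cases j <;> simp [ux, m00, m10, m11, h1]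
  · refine ⟨ux (m.1 0 1 / ((c : F) - ((c⁻¹ : Fˣ) : F))) * P⁻¹, Or.inr ⟨c, h1, ?_⟩⟩
    have e1 : ux (m.1 0 1 / ((c : F) - ((c⁻¹ : Fˣ) : F))) * P⁻¹ * h *
        (ux (m.1 0 1 / ((c : F) - ((c⁻¹ : Fˣ) : F))) * P⁻¹)⁻¹ =
        ux (m.1 0 1 / ((c : F) - ((c⁻¹ : Fˣ) : F))) * m *
          (ux (m.1 0 1 / ((c : F) - ((c⁻¹ : Fˣ) : F))))⁻¹ := by
      rw [hm]
      group
    rw [e1, mul_inv_eq_iff_eq_mul]
    have hne := char_two_ne (F := F) h1
    apply Subtype.ext
    rw [cm, cm]
    ext i j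
    fin_cases i <;> fin_cases j <;>
      simp only [ux, tc, Matrix.mul_apply, Fin.sum_univ_two, Fin.zero_eta, Fin.mk_one,
        Matrix.of_apply, Matrix.cons_val', Matrix.cons_val_zero, Matrix.cons_val_one,
        Matrix.cons_val_fin_one, m00, m10, m11] <;> field_simp <;> ring

open Classical in
/-- sum of `μ` over the eigenvectors of `h` -/
noncomputable def A (μ : Fˣ →* ℂˣ) (h : SpecialLinearGroup (Fin 2) F) : ℂ :=
  ∑ v : Fin 2 → F, ∑ c : Fˣ,
    if v ≠ 0 ∧ h.1 *ᵥ v = (c : F) • v then ((μ c : ℂˣ) : ℂ) else 0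

theorem A_conj (μ : Fˣ →* ℂˣ) (k h : SpecialLinearGroup (Fin 2) F) :
    A μ (k * h * k⁻¹) = A μ h := by
  classical
  have h1 : ∀ k : SpecialLinearGroup (Fin 2) F, (k⁻¹).1 * k.1 = 1 := cim
  have h2 : ∀ k : SpecialLinearGroup (Fin 2) F, k.1 * (k⁻¹).1 = 1 := cmi
  let e : (Fin 2 → F) ≃ (Fin 2 → F) :=
    { toFun := fun w => k.1 *ᵥ w
      invFun := fun w => (k⁻¹).1 *ᵥ w
      left_inv := fun w => by
        change (k⁻¹).1 *ᵥ (k.1 *ᵥ w) = w
        rw [Matrix.mulVec_mulVec, h1, Matrix.one_mulVec]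
      right_inv := fun w => by
        change k.1 *ᵥ ((k⁻¹).1 *ᵥ w) = w
        rw [Matrix.mulVec_mulVec, h2, Matrix.one_mulVec] }
  unfold A
  rw [← Equiv.sum_comp e]
  refine Finset.sum_congr rfl fun w _ => Finset.sum_congr rfl fun c _ => ?_
  have e1 : e w ≠ 0 ↔ w ≠ 0 := by
    rw [not_iff_not]
    constructor
    · intro h3
      have h4 := e.symm_apply_apply w
      rw [h3] at h4
      rw [← h4]
      change (k⁻¹).1 *ᵥ (0 : Fin 2 → F) = 0
      rw [Matrix.mulVec_zero]
    · intro h3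
      rw [h3]
      change k.1 *ᵥ (0 : Fin 2 → F) = 0
      rw [Matrix.mulVec_zero]
  have e2 : (k * h * k⁻¹).1 *ᵥ (e w) = (c : F) • e w ↔ h.1 *ᵥ w = (c : F) • w := by
    have e3 : (k * h * k⁻¹).1 *ᵥ (e w) = e (h.1 *ᵥ w) := by
      change (k * h * k⁻¹).1 *ᵥ (k.1 *ᵥ w) = k.1 *ᵥ (h.1 *ᵥ w)
      rw [cm, cm, Matrix.mulVec_mulVec,
        Matrix.mulVec_mulVec, mul_assoc, h1, mul_one]
    have e4 : (c : F) • e w = e ((c : F) • w) := by
      change (c : F) • (k.1 *ᵥ w) = k.1 *ᵥ ((c : F) • w)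
      rw [Matrix.mulVec_smul]
    rw [e3, e4]
    exact e.injective.eq_iff
  simp only [e1, e2]

theorem sum_vec (f : F → F → ℂ) :
    ∑ v : Fin 2 → F, f (v 0) (v 1) = ∑ x : F, ∑ y : F, f x y := by
  rw [← Fintype.sum_prod_type' (f := f)]
  exact Fintype.sum_equiv (finTwoArrowEquiv F) _ _ (fun v => rfl)

theorem A_one (μ : Fˣ →* ℂˣ) : A μ (1 : SpecialLinearGroup (Fin 2) F) =
    (Fintype.card F : ℂ) ^ 2 - 1 := by
  classical
  unfold A
  have h1 : ∀ v : Fin 2 → F, ∑ c : Fˣ,
      (if v ≠ 0 ∧ (1 : SpecialLinearGroup (Fin 2) F).1 *ᵥ v = (c : F) • v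
        then ((μ c : ℂˣ) : ℂ) else 0) = if v = 0 then 0 else 1 := by
    intro v
    by_cases hv : v = 0
    · simp [hv]
    · rw [if_neg hv, Finset.sum_eq_single 1]
      · rw [if_pos, map_one, Units.val_one]
        refine ⟨hv, ?_⟩
        rw [c1, Matrix.one_mulVec, Units.val_one, one_smul]
      · intro c _ hc
        rw [if_neg]
        rintro ⟨-, h2⟩
        apply hc
        rw [c1, Matrix.one_mulVec] at h2
        have h3 : ((1 : F) - c) • v = 0 := by
          rw [sub_smul, one_smul, ← h2, sub_self]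
        rcases smul_eq_zero.1 h3 with h4 | h4
        · exact Units.ext (sub_eq_zero.1 h4).symm
        · exact absurd h4 hv
      · intro h; exact absurd (Finset.mem_univ _) h
  rw [Finset.sum_congr rfl fun v _ => h1 v]
  have h2 : ∀ v : Fin 2 → F, (if v = 0 then (0 : ℂ) else 1) = 1 - if v = 0 then 1 else 0 := by
    intro v
    split_ifs <;> simp
  rw [Finset.sum_congr rfl fun v _ => h2 v, Finset.sum_sub_distrib]
  simp

theorem A_ux (μ : Fˣ →* ℂˣ) {x : F} (hx : x ≠ 0) : A μ (ux x) = (Fintype.card F : ℂ) - 1 := by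
  classical
  unfold A
  have h1 : ∀ v : Fin 2 → F, ∑ c : Fˣ,
      (if v ≠ 0 ∧ (ux x).1 *ᵥ v = (c : F) • v
        then ((μ c : ℂˣ) : ℂ) else 0) = if v 1 = 0 then (if v 0 = 0 then 0 else 1) else 0 := by
    intro v
    have hu : (ux x).1 *ᵥ v = ![v 0 + x * v 1, v 1] := by
      ext i
      fin_cases i <;> simp [ux, Matrix.mulVec, dotProduct, Fin.sum_univ_two]
    rw [hu]
    by_cases hv1 : v 1 = 0
    · rw [if_pos hv1]
      by_cases hv0 : v 0 = 0
      · rw [if_pos hv0]
        have : v = 0 := by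
          ext i
          fin_cases i
          · exact hv0
          · exact hv1
        simp [this]
      · rw [if_neg hv0, Finset.sum_eq_single 1]
        · rw [if_pos, map_one, Units.val_one]
          refine ⟨fun h => hv0 (by rw [h]; rfl), ?_⟩
          ext i
          fin_cases i <;> simp [hv1]
        · intro c _ hc
          rw [if_neg]
          rintro ⟨-, h2⟩
          apply hc
          have h3 := congrFun h2 0
          simp [hv1] at h3
          exact Units.ext (mul_right_cancel₀ hv0 (by rw [Units.val_one, one_mul]; exact h3.symm))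
        · intro h; exact absurd (Finset.mem_univ _) h
    · rw [if_neg hv1]
      apply Finset.sum_eq_zero
      intro c _
      rw [if_neg]
      rintro ⟨-, h2⟩
      have h3 := congrFun h2 0
      have h4 := congrFun h2 1
      simp at h3 h4
      have h5 : (c : F) = 1 := by
        apply mul_right_cancel₀ hv1
        rw [one_mul]
        exact h4.symm
      rw [h5, one_mul] at h3
      have h6 : x * v 1 = 0 := by linear_combination h3
      rcases mul_eq_zero.1 h6 with h7 | h7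
      · exact hx h7
      · exact hv1 h7
  rw [Finset.sum_congr rfl fun v _ => h1 v,
    sum_vec (fun a b => if b = 0 then (if a = 0 then (0 : ℂ) else 1) else 0)]
  have h2 : ∀ a : F, ∑ b : F, (if b = 0 then (if a = 0 then (0 : ℂ) else 1) else 0) =
      1 - if a = 0 then 1 else 0 := by
    intro a
    rw [Finset.sum_ite_eq' Finset.univ (0 : F) (fun _ => if a = 0 then (0 : ℂ) else 1),
      if_pos (Finset.mem_univ _)]
    split_ifs <;> simp
  rw [Finset.sum_congr rfl fun a _ => h2 a, Finset.sum_sub_distrib]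
  simp

theorem A_tc [CharP F 2] (μ : Fˣ →* ℂˣ) {d : Fˣ} (hd : d ≠ 1) : A μ (tc d) =
    ((Fintype.card F : ℂ) - 1) * (((μ d : ℂˣ) : ℂ) + ((μ d⁻¹ : ℂˣ) : ℂ)) := by
  classical
  have hdd : d ≠ d⁻¹ := by
    intro h
    apply char_two_ne (F := F) hd
    rw [← h, sub_self]
  unfold A
  have h1 : ∀ v : Fin 2 → F, ∑ c : Fˣ,
      (if v ≠ 0 ∧ (tc d).1 *ᵥ v = (c : F) • v
        then ((μ c : ℂˣ) : ℂ) else 0) =
      (if v 1 = 0 then (if v 0 = 0 then 0 else ((μ d : ℂˣ) : ℂ)) else 0) +
      (if v 0 = 0 then (if v 1 = 0 then 0 else ((μ d⁻¹ : ℂˣ) : ℂ)) else 0) := by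
    intro v
    have hu : (tc d).1 *ᵥ v = ![(d : F) * v 0, ((d⁻¹ : Fˣ) : F) * v 1] := by
      ext i
      fin_cases i <;> simp [tc, Matrix.mulVec, dotProduct, Fin.sum_univ_two]
    rw [hu]
    by_cases hv1 : v 1 = 0
    · rw [if_pos hv1, if_pos hv1]
      by_cases hv0 : v 0 = 0
      · rw [if_pos hv0, if_pos hv0]
        have : v = 0 := by
          ext i
          fin_cases i
          · exact hv0
          · exact hv1
        simp [this]
      · rw [if_neg hv0, if_neg hv0, add_zero, Finset.sum_eq_single d]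
        · rw [if_pos]
          refine ⟨fun h => hv0 (by rw [h]; rfl), ?_⟩
          ext i
          fin_cases i <;> simp [hv1]
        · intro c _ hc
          rw [if_neg]
          rintro ⟨-, h2⟩
          apply hc
          have h3 := congrFun h2 0
          simp at h3
          rcases h3 with h3 | h3
          · exact Units.ext h3.symm
          · exact absurd h3 hv0
        · intro h; exact absurd (Finset.mem_univ _) h
    · rw [if_neg hv1, if_neg hv1, zero_add]
      by_cases hv0 : v 0 = 0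
      · rw [if_pos hv0, Finset.sum_eq_single d⁻¹]
        · rw [if_pos]
          refine ⟨fun h => hv1 (by rw [h]; rfl), ?_⟩
          ext i
          fin_cases i <;> simp [hv0]
        · intro c _ hc
          rw [if_neg]
          rintro ⟨-, h2⟩
          apply hc
          have h3 := congrFun h2 1
          have h4 : ((d⁻¹ : Fˣ) : F) * v 1 = (c : F) * v 1 := by simpa using h3
          exact Units.ext (mul_right_cancel₀ hv1 h4).symm
        · intro h; exact absurd (Finset.mem_univ _) h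
      · rw [if_neg hv0]
        apply Finset.sum_eq_zero
        intro c _
        rw [if_neg]
        rintro ⟨-, h2⟩
        have h3 : (d : F) * v 0 = (c : F) * v 0 := by simpa using congrFun h2 0
        have h4 : ((d⁻¹ : Fˣ) : F) * v 1 = (c : F) * v 1 := by simpa using congrFun h2 1
        have h5 := Units.ext (mul_right_cancel₀ hv0 h3)
        have h6 := Units.ext (mul_right_cancel₀ hv1 h4)
        exact hdd (h5.trans h6.symm)
  rw [Finset.sum_congr rfl fun v _ => h1 v, Finset.sum_add_distrib,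
    sum_vec (fun a b => if b = 0 then (if a = 0 then (0 : ℂ) else ((μ d : ℂˣ) : ℂ)) else 0),
    sum_vec (fun a b => if a = 0 then (if b = 0 then (0 : ℂ) else ((μ d⁻¹ : ℂˣ) : ℂ)) else 0)]
  have h2 : ∀ (z : ℂ) (a : F), ∑ b : F, (if b = 0 then (if a = 0 then (0 : ℂ) else z) else 0) =
      z - if a = 0 then z else 0 := by
    intro z a
    rw [Finset.sum_ite_eq' Finset.univ (0 : F) (fun _ => if a = 0 then (0 : ℂ) else z),
      if_pos (Finset.mem_univ _)]
    split_ifs <;> simp
  rw [Finset.sum_comm (f := fun a b =>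
    if a = 0 then (if b = 0 then (0 : ℂ) else ((μ d⁻¹ : ℂˣ) : ℂ)) else 0)]
  rw [Finset.sum_congr rfl fun a _ => h2 _ a, Finset.sum_congr rfl fun a _ => h2 _ a,
    Finset.sum_sub_distrib, Finset.sum_sub_distrib]
  simp
  ring

end field

section group

variable {F : Type} [Field F] [Fintype F] {G : Type} [Group G] [Fintype G]

/-- positivity -/
theorem S_nonneg (ι : G →* SpecialLinearGroup (Fin 2) F) (μ : Fˣ →* ℂˣ) {χ : G → ℂ}
    (hχ : χ ∈ Irr G) : ∃ r : ℝ, 0 ≤ r ∧ ∑ g : G, A μ (ι g) * χ g⁻¹ = (r : ℂ) := by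
  classical
  have key : ∀ v : Fin 2 → F, ∃ r : ℝ, 0 ≤ r ∧ ∑ g : G, (∑ c : Fˣ,
      if v ≠ 0 ∧ (ι g).1 *ᵥ v = (c : F) • v
        then ((μ c : ℂˣ) : ℂ) else 0) * χ g⁻¹ = (r : ℂ) := by
    intro v
    by_cases hv : v = 0
    · exact ⟨0, le_refl _, by simp [hv]⟩
    have huniq : ∀ c c' : Fˣ, (c : F) • v = (c' : F) • v → c = c' := by
      intro c c' h
      have h3 : ((c : F) - c') • v = 0 := by rw [sub_smul, h, sub_self]
      rcases smul_eq_zero.1 h3 with h4 | h4
      · exact Units.ext (sub_eq_zero.1 h4)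
      · exact absurd h4 hv
    have hmul : ∀ g g' : G, ∀ c c' : Fˣ, (ι g).1 *ᵥ v = (c : F) • v →
        (ι g').1 *ᵥ v = (c' : F) • v →
        (ι (g * g')).1 *ᵥ v = ((c * c' : Fˣ) : F) • v := by
      intro g g' c c' h h'
      rw [map_mul, cm, ← Matrix.mulVec_mulVec, h', Matrix.mulVec_smul, h,
        smul_smul, Units.val_mul, mul_comm]
    let H : Subgroup G :=
      { carrier := {g | ∃ c : Fˣ, (ι g).1 *ᵥ v = (c : F) • v}
        mul_mem' := by
          rintro g g' ⟨c, h⟩ ⟨c', h'⟩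
          exact ⟨c * c', hmul g g' c c' h h'⟩
        one_mem' := ⟨1, by
          rw [map_one, c1, Matrix.one_mulVec, Units.val_one, one_smul]⟩
        inv_mem' := by
          rintro g ⟨c, h⟩
          refine ⟨c⁻¹, ?_⟩
          have h1 : (ι g⁻¹).1 *ᵥ ((ι g).1 *ᵥ v)
              = v := by
            rw [Matrix.mulVec_mulVec, ← cm, ← map_mul, inv_mul_cancel,
              map_one, c1, Matrix.one_mulVec]
          rw [h, Matrix.mulVec_smul] at h1
          have h2 := congrArg (fun w => ((c⁻¹ : Fˣ) : F) • w) h1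
          simp only [smul_smul] at h2
          rw [← Units.val_mul, inv_mul_cancel, Units.val_one, one_smul] at h2
          exact h2 }
    have hmem : ∀ g : G, g ∈ H ↔ ∃ c : Fˣ, (ι g).1 *ᵥ v = (c : F) • v :=
      fun g => Iff.rfl
    choose cf hcf using fun g : H => (hmem g.1).1 g.2
    let cv : H →* Fˣ := MonoidHom.mk' cf (by
      intro g g'
      apply huniq
      rw [← hcf (g * g')]
      exact hmul g g' _ _ (hcf g) (hcf g'))
    obtain ⟨n, hn⟩ := exists_mult hχ H (μ.comp cv)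
    refine ⟨n * Nat.card H, by positivity, ?_⟩
    push_cast
    rw [← hn, finsum_eq_sum_of_fintype]
    have h1 : ∀ g : G, (∑ c : Fˣ,
        if v ≠ 0 ∧ (ι g).1 *ᵥ v = (c : F) • v
          then ((μ c : ℂˣ) : ℂ) else 0) * χ g⁻¹ =
        if h : g ∈ H then ((μ (cv ⟨g, h⟩) : ℂˣ) : ℂ) * χ g⁻¹ else 0 := by
      intro g
      by_cases hg : g ∈ H
      · rw [dif_pos hg, Finset.sum_eq_single (cv ⟨g, hg⟩)]
        · rw [if_pos]
          exact ⟨hv, hcf ⟨g, hg⟩⟩
        · intro c _ hc
          rw [if_neg]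
          rintro ⟨-, h2⟩
          exact hc (huniq _ _ (h2.symm.trans (hcf ⟨g, hg⟩)))
        · intro h; exact absurd (Finset.mem_univ _) h
      · rw [dif_neg hg, Finset.sum_eq_zero, zero_mul]
        intro c _
        rw [if_neg]
        rintro ⟨-, h2⟩
        exact hg ⟨c, h2⟩
    rw [Finset.sum_congr rfl fun g _ => h1 g]
    have h2 : ∑ g : G, (if h : g ∈ H then ((μ (cv ⟨g, h⟩) : ℂˣ) : ℂ) * χ g⁻¹ else 0) =
        ∑ h : H, ((μ (cv h) : ℂˣ) : ℂ) * χ ((h : G)⁻¹) := by
      rw [← Finset.sum_filter_add_sum_filter_not Finset.univ (fun g => g ∈ H)]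
      rw [Finset.sum_eq_zero (s := Finset.univ.filter (fun g => ¬ g ∈ H)), add_zero]
      · symm
        apply Finset.sum_bij (fun (h : H) _ => (h : G))
        · intro h _
          simp
        · intro a _ b _ hab
          exact Subtype.ext hab
        · intro b hb
          exact ⟨⟨b, (Finset.mem_filter.1 hb).2⟩, Finset.mem_univ _, rfl⟩
        · intro h _
          rw [dif_pos h.2]
      · intro g hg
        rw [dif_neg (Finset.mem_filter.1 hg).2]
    rw [h2, ← Equiv.sum_comp (Equiv.inv H)]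
    refine Finset.sum_congr rfl fun h _ => ?_
    simp only [Equiv.inv_apply, map_inv, Subgroup.coe_inv, inv_inv, MonoidHom.comp_apply]
    rw [mul_comm]
  choose r hr hrs using key
  refine ⟨∑ v, r v, Finset.sum_nonneg fun v _ => hr v, ?_⟩
  rw [Complex.ofReal_sum, ← Finset.sum_congr rfl fun v _ => hrs v, Finset.sum_comm]
  refine Finset.sum_congr rfl fun g _ => ?_
  rw [← Finset.sum_mul]
  unfold A
  congr 1

end group

theorem t_P (hA : SA) : SP := by
  intro F _ _ _ θ hθ G _ _ ι hι hord χ hχ m hm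
  classical
  have : Fintype F := Fintype.ofFinite F
  have hGc : (0 : ℝ) < Fintype.card G := by exact_mod_cast Fintype.card_pos
  by_cases hne : χ = fun _ => 1
  · obtain ⟨n, hn⟩ := hθ.mult_hom ι (1 : G →* ℂˣ)
    have h1 : (n : ℂ) * (Nat.card G : ℂ) = (m : ℂ) * Fintype.card G := by
      rw [← hn, ← hm, hne]
      refine Finset.sum_congr rfl fun g _ => ?_
      simp
    rw [Nat.card_eq_fintype_card] at h1
    have h2 : (Fintype.card G : ℂ) ≠ 0 := by exact_mod_cast Fintype.card_pos.ne'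
    have h3 : (n : ℂ) = (m : ℂ) := mul_right_cancel₀ h2 h1
    have h4 : (n : ℤ) = m := by exact_mod_cast h3
    rw [← h4]
    positivity
  obtain ⟨N, f, I, _, μ, b, hN, hb, hf, h1, htc, hsum, hle⟩ := hA F θ hθ
  rw [Nat.card_eq_fintype_card] at h1
  obtain ⟨q, hq⟩ : ∃ q : ℝ, q = Fintype.card F := ⟨_, rfl⟩
  have hqc : (Fintype.card F : ℂ) = (q : ℂ) := by rw [hq]; simp
  have hq1 : 1 < q := by
    rw [hq]
    exact_mod_cast Fintype.one_lt_card
  -- the pointwise identity
  have hpt : ∀ g : G, 2 * ((q : ℂ) - 1) * θ (ι g) =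
      ∑ i, (b i : ℂ) * A (μ i) (ι g) + ((N : ℂ) - f) * (A 1 (ι g) - 2 * ((q : ℂ) - 1)) := by
    intro g
    obtain ⟨a, ha⟩ := hord g
    obtain ⟨k, hk⟩ := cls (ι g) (eig (ι g) a (by rw [← map_pow, ha, map_one]))
    rw [← hθ.conj (ι g) k, ← A_conj 1 k (ι g)]
    have e1 : ∀ i, A (μ i) (ι g) = A (μ i) (k * ι g * k⁻¹) := fun i => (A_conj (μ i) k (ι g)).symm
    simp only [e1]
    have hsc : (∑ i, (b i : ℂ)) = (f : ℂ) + N := by
      rw [← Complex.ofReal_sum, hsum]
      push_cast
      ring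
    rcases hk with ⟨x, hx⟩ | ⟨c, hc, hx⟩
    · rw [hx]
      by_cases hx0 : x = 0
      · have e2 : (ux x : SpecialLinearGroup (Fin 2) F) = 1 := by
          apply Subtype.ext
          ext i j
          fin_cases i <;> fin_cases j <;> simp [ux, hx0]
        rw [e2]
        simp only [A_one]
        rw [h1, ← Finset.sum_mul, hsc, hqc]
        push_cast
        rw [hqc]
        ring
      · simp only [A_ux _ hx0]
        rw [hf x hx0, ← Finset.sum_mul, hsc, hqc]
        ring
    · rw [hx]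
      simp only [A_tc _ hc]
      have e2 : θ (tc c) = θ (tc c⁻¹) := by
        have h2 : (2 : F) = 0 := CharTwo.two_eq_zero
        let w : SpecialLinearGroup (Fin 2) F := ⟨!![0, 1; 1, 0], by
          rw [Matrix.det_fin_two]
          simp
          linear_combination -h2⟩
        rw [← hθ.conj (tc c⁻¹) w]
        congr 1
        rw [eq_mul_inv_iff_mul_eq]
        apply Subtype.ext
        rw [cm, cm]
        ext i j
        fin_cases i <;> fin_cases j <;> simp [tc, w, Matrix.mul_apply, Fin.sum_univ_two]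
      have hc' : c⁻¹ ≠ 1 := fun h => hc (inv_eq_one.1 h)
      have e3 : 2 * θ (tc c) = ∑ i, (b i : ℂ) * (((μ i c : ℂˣ) : ℂ) + ((μ i c⁻¹ : ℂˣ) : ℂ)) := by
        rw [two_mul]
        nth_rewrite 2 [e2]
        rw [htc c hc, htc c⁻¹ hc', ← Finset.sum_add_distrib]
        refine Finset.sum_congr rfl fun i _ => ?_
        ring
      rw [hqc]
      have e4 : ∀ i, (b i : ℂ) * (((q : ℂ) - 1) * (((μ i c : ℂˣ) : ℂ) + ((μ i c⁻¹ : ℂˣ) : ℂ))) =
          ((q : ℂ) - 1) * ((b i : ℂ) * (((μ i c : ℂˣ) : ℂ) + ((μ i c⁻¹ : ℂˣ) : ℂ))) := by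
        intro i
        ring
      rw [Finset.sum_congr rfl fun i _ => e4 i, ← Finset.mul_sum, ← e3]
      simp only [MonoidHom.one_apply, Units.val_one]
      ring
  -- sum over the group
  choose r hr hrs using fun ν : Fˣ →* ℂˣ => S_nonneg ι ν hχ
  have hz := sum_irr_inv hχ hne
  have hS : (2 * (q - 1) * (m * Fintype.card G) : ℝ) =
      ∑ i, b i * r (μ i) + (N - f) * r 1 := by
    have h2 : ((2 * (q - 1) * (m * Fintype.card G) : ℝ) : ℂ) =
        ((∑ i, b i * r (μ i) + (N - f) * r 1 : ℝ) : ℂ) := by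
      push_cast
      rw [← hm, Finset.mul_sum]
      have h3 : ∀ g : G, 2 * ((q : ℂ) - 1) * (θ (ι g) * χ g⁻¹) =
          ∑ i, (b i : ℂ) * (A (μ i) (ι g) * χ g⁻¹) + ((N : ℂ) - f) * (A 1 (ι g) * χ g⁻¹) -
            ((N : ℂ) - f) * (2 * ((q : ℂ) - 1)) * χ g⁻¹ := by
        intro g
        rw [← mul_assoc, hpt g, add_mul, Finset.sum_mul]
        have : ∀ i, (b i : ℂ) * A (μ i) (ι g) * χ g⁻¹ = (b i : ℂ) * (A (μ i) (ι g) * χ g⁻¹) :=
          fun i => by ring
        rw [Finset.sum_congr rfl fun i _ => this i]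
        ring
      rw [Finset.sum_congr rfl fun g _ => h3 g, Finset.sum_sub_distrib, Finset.sum_add_distrib,
        ← Finset.mul_sum, ← Finset.mul_sum, hz, mul_zero, sub_zero, hrs, Finset.sum_comm]
      congr 1
      refine Finset.sum_congr rfl fun i _ => ?_
      rw [← Finset.mul_sum, hrs]
    exact_mod_cast h2
  have hfin : 0 ≤ ∑ i, b i * r (μ i) + (N - f) * r 1 := by
    have h2 : ∀ i, b i * r 1 - (if μ i = 1 then 0 else b i) * r 1 ≤ b i * r (μ i) := by
      intro i
      by_cases h3 : μ i = 1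
      · rw [if_pos h3, h3]
        simp
      · rw [if_neg h3, sub_self]
        exact mul_nonneg (hb i) (hr _)
    have h3 := Finset.sum_le_sum fun i (_ : i ∈ Finset.univ) => h2 i
    rw [Finset.sum_sub_distrib, ← Finset.sum_mul, ← Finset.sum_mul, hsum] at h3
    have h4 : (∑ i, if μ i = 1 then 0 else b i) * r 1 ≤ 2 * N * r 1 := by
      apply mul_le_mul_of_nonneg_right _ (hr 1)
      refine le_trans (le_of_eq (Finset.sum_congr rfl fun i _ => ?_)) hle
      split_ifs <;> rfl
    linarith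
  rw [← hS] at hfin
  by_contra hcon
  push Not at hcon
  have h5 : (m : ℝ) < 0 := by exact_mod_cast hcon
  have h6 : (m : ℝ) * Fintype.card G < 0 := mul_neg_of_neg_of_pos h5 hGc
  have h7 : 2 * (q - 1) * (m * Fintype.card G) < 0 :=
    mul_neg_of_pos_of_neg (by linarith) h6
  linarith

end Pool.Agent.Y508.SL
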